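import Pool.Agent.K6.H7.CM2.Gal
import Pool.Agent.K6.H7.CM2.Dim

set_option autoImplicit false

/-!
# A lower bound for the dimension of the period torsors of 1-motives over abelian varieties with
complex multiplication

Let `A` be an abelian variety over the field `ℚ̄` of algebraic numbers with complex multiplication: it
is isogenous to a product of abelian varieties `ℂ^{Φ_i} / O_{K_i}`, for a finite family of number
fields `K_i` and of sets `Φ_i` of complex embeddings of `K_i` (which contain one embedding of every
pair of conjugate embeddings). We assume that the factors are simple, in other words that the CM types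
`Φ_i` are primitive (they are not induced by proper subfields). Let `L` be the smallest Galois extension
of `ℚ` which contains the fields `K_i`.

**Theorem.** Let `M = [ℤ^n → G']` be a 1-motive over `A` (with `G'` an extension of `A` by `G_m^s`) and
let `G` be an algebraic subgroup over `ℚ` of the Mumford-Tate group of `M` with a torsor over `ℚ̄` which
contains the comparison isomorphism of `M`. Then the Galois group of `L` has a faithful representation
by rational matrices of size `r ≤ dim G - 1` for which complex conjugation acts as `-1`.
In particular, the degree of `L` over `ℚ` divides `(2 (dim G - 1))!`.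

The period conjecture predicts that `G` is the Mumford-Tate group of `M`. The theorem says that
the dimension of `G` tends to infinity with the degree of `L`. In particular, if `A` is a simple abelian
variety with complex multiplication of dimension `g`, then the degree of `L` is at least `2 g`, so that
`2 g ≤ (2 (dim G - 1))!`. There is no hypothesis on the Galois group and on the rank of the CM types.

The dimension is the dimension of the Lie algebra, the space of the rational matrices `X` for which
`exp (t X)` is in `G` for all complex numbers `t` (the group is defined over `ℚ`, so that the Lie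
algebra over `ℂ` is generated by these matrices). The periods, the 1-motives, the torsors and the
Mumford-Tate group are defined in `Pool.Agent.N208.OU.Defs`, the CM types and the products of the
`ℂ^{Φ_i} / O_{K_i}` in `Pool.Agent.K6.H7.CM1.Dat`.

## Proof

Let `𝔥` be the image of the Lie algebra of `G` in `End H_1(A, ℚ)`, up to the weight. It is contained in
`∏ K_i`. By the theorem of Wüstholz (proved in Lean in the files of `Pool.Agent.Y102`) the commutant of
`𝔥` is `End(A) ⊗ ℚ`, and `𝔥` is closed under the replicas of its elements. The linear relations
with rational coefficients between the conjugates of the components of the elements of `𝔥` form a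
Galois stable space `N` of functions on the set of the embeddings of the `K_i` in `L`, and its
annihilator `Y` (the space of the cocharacters of the torus) has at most the dimension of `𝔥`, by the
closure under replicas. Galois acts faithfully on `Y`: if an automorphism acts trivially, then it fixes
all embeddings `χ` of `K_i` in `L` modulo `N`, so that `χ` and its conjugate give the same
eigenvectors of `𝔥`, and as the commutant of `𝔥` is `End(A) ⊗ ℚ` they have the same weights for the
Mumford-Tate group. As `Φ_i` is primitive, they are equal. So the automorphism is trivial on `L`.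
Finally, the order of a finite group with a faithful rational representation of dimension `r`
divides `(2 r)!` (Schur, Minkowski; `Pool.Agent.K6.H7.CM2.card_dvd_factorial`), and one dimension more
comes from the weight.
-/

open Module Matrix Pool.Agent.Y102 Pool.Agent.R917.OM Pool.Agent.N208.OneM
  Pool.Agent.K6.H7.CM1

noncomputable section

namespace Pool.Agent.K6.H7.Var.GaloisGroupOrder

/-- **The Galois group has a faithful representation of the dimension of the group.** -/
theorem result (ι : Type) [Fintype ι] (K : ι → Type) [∀ i, Field (K i)] [∀ i, NumberField (K i)]
    (Φ : ∀ i, Set (K i →+* ℂ)) (hΦ : ∀ i, IsCMType (Φ i)) (hprim : ∀ i, IsPrimitive (Φ i))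
    (L : Type) [Field L] [NumberField L] [IsGalois ℚ L]
    (hL : ⨆ p : (Σ i, (K i →ₐ[ℚ] L)), p.2.fieldRange = ⊤)
    (g : ℕ) (A : AbVarG g) (hA : IsCMProduct A.toAbVar Φ)
    (n s : ℕ) (u : Fin n → Fin g → ℂ) (v : Fin s → Fin g → ℂ) (ℓ : Fin n → Fin s → ℂ)
    (G : Subgroup (GL (Betti g n s) ℂ)) (hG : IsAlgebraicSubgroup G)
    (hle : G ≤ mumfordTate A u v ℓ) (hP : ContainsPeriods A u v ℓ G) :
    (∃ r ≤ dimension G - 1, ∃ ρ : (L ≃ₐ[ℚ] L) →* Matrix (Fin r) (Fin r) ℚ,
      Function.Injective ρ ∧ ∀ c : L ≃ₐ[ℚ] L,
        (∀ (φ : L →+* ℂ) (x : L), φ (c x) = (starRingEnd ℂ) (φ x)) → ρ c = -1) ∧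
    finrank ℚ L ∣ (2 * (dimension G - 1)).factorial := by
  obtain ⟨D⟩ := exists_data hA hΦ
  have hd : finrank ℚ (hh A G) ≤ dimension G - 1 := by
    rcases Nat.eq_zero_or_pos g with rfl | hg
    · have h2 := Submodule.finrank_le (hh A G)
      have h3 : finrank ℚ (Module.End ℚ A.toAbVar.H1) = 0 := by
        have h4 : Subsingleton A.toAbVar.H1 := ⟨fun a b => funext fun i => absurd i.2 (by omega)⟩
        exact finrank_zero_of_subsingleton
      omega
    · have h2 := finrank_hh_lt hg hG hP hle
      omega
  obtain ⟨r, hr, ρ, h1, h2⟩ :=
    D.exists_faithful hΦ hprim hL (hh_full hG hP) (hh_RC hG hP) (hh_le_MA hG hle hP)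
  exact ⟨⟨r, hr.trans hd, ρ, h1, h2⟩,
    (D.degree_dvd hΦ hprim hL (hh_full hG hP) (hh_RC hG hP) (hh_le_MA hG hle hP)).trans
      (Nat.factorial_dvd_factorial (Nat.mul_le_mul_left 2 hd))⟩

end Pool.Agent.K6.H7.Var.GaloisGroupOrder
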