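import Pool.Agent.Results.MP_5d33ca_ag.OneMotivesMumfordTate
import Pool.Agent.Results.MP_f11a48_ag.MiddleExteriorMotives

set_option autoImplicit false

/-!
# 1-motives over abelian varieties of middle exterior type

Let `B` be an abelian variety over `ℚ̄` of middle exterior type (`MiddleExterior`): the complexified Lie
algebra of the Hodge group is the sum of `k` Lie algebras `sl(2 m)`, and `H_1(B, ℂ)` is a sum of copies
of the tensor product of the `k` middle exterior powers `Λ ^ m (ℂ ^ {2 m})` of the standard
representations. For `m = 1` these are the abelian varieties of Mumford type: the fourfolds of Mumford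
with `End(B) = ℤ` and the Hodge group of a form of `SL(2) ^ 3` for `k = 3`, and their generalizations of
dimension `2 ^ (k - 1)` (`k` odd) with any number `k` of factors. For `m > 1` the Hodge groups are forms
of `SU(1, 2 m - 1)`, with compact factors, acting on the middle exterior power of the standard
representation (Satake).

**Theorem.** Let `A` be a direct factor of `B` up to isogeny (for example `A = B`), and let
`M = [ℤ^n → G_v]` be any 1-motive over `ℚ̄` whose abelian part is `A` (with `G_v` an extension of `A` by
`G_m^s`). Then every algebraic group `G` over `ℚ` with a torsor over `ℚ̄` which contains the comparison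
isomorphism of `M` contains the Mumford-Tate group of `M`.

So the torsor of the motivic Galois group is the smallest of these torsors (in the terminology of André:
`Ω^And = Ω^dRB`), for `M` and all motives generated by `M`. There are no conditions on the points which
define `M`: the deficient 1-motives of Ribet and Jacquinot are included.

The definitions (1-motives, periods, torsors, Mumford-Tate group) are those of the file
`OneMotivesMumfordTate`, whose theorem has the hypothesis that `A` is a factor of a determined abelian
variety. It is not proved there for the abelian varieties of middle exterior type. The theorem on the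
subalgebras with the same commutant, which is needed here, is proved in `Pool.Agent.R918` and
`Pool.Agent.N166.ME.Main`; the file `MP_f11a48_ag.MiddleExteriorMotives` has the case of the pure
motives generated by `A`.
-/

open Module Matrix Pool.Agent.Y102 Pool.Agent.R917.OM Pool.Agent.R917.DT

noncomputable section

namespace Pool.Agent.K6.H7.Var.MiddleExteriorOneMotives

open Pool.Agent.Results.MP_5d33ca_ag.OneMotivesMumfordTate
open Pool.Agent.Results.MP_f11a48_ag.MiddleExteriorMotives (MiddleExterior)

/-- The Lie algebra of the Hodge group has no proper subalgebras with the same commutant. -/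
theorem det_of_middle {g : ℕ} {A : AbVar g} {k m : ℕ} (h : MiddleExterior A k m) : Det A := by
  obtain ⟨K, a, b, p, q, ⟨h1, h2, h3⟩, h4, h5, h6⟩ := h
  obtain ⟨hf, -⟩ := Pool.Agent.N166.ME.mid_props (A := A) (a := a) (b := b) h1 h2 h3 h4 h5 h6
  exact fun 𝔥 h _ => hf 𝔥 h

/-- **1-motives over abelian varieties of middle exterior type.** -/
theorem result (g' : ℕ) (B : AbVar g') (k m : ℕ) (hB : MiddleExterior B k m)
    (g n s : ℕ) (A : AbVarG g) (hA : IsFactor A.toAbVar B)
    (u : Fin n → Fin g → ℂ) (v : Fin s → Fin g → ℂ) (ℓ : Fin n → Fin s → ℂ)
    (hM : IsOneMotive A u v ℓ) (G : Subgroup (GL (Betti g n s) ℂ)) (hG : IsAlgebraicSubgroup G)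
    (hP : ContainsPeriods A u v ℓ G) : mumfordTate A u v ℓ ≤ G :=
  OneMotivesMumfordTate.result g' B (determined_of_det B (det_of_middle hB)) g n s A
    hA u v ℓ hM G hG hP

end Pool.Agent.K6.H7.Var.MiddleExteriorOneMotives
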