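import Mathlib
import Pool.Agent.K6.H7.SC.Zet

/-!
# The strong monodromy conjecture for sparse straight-line programs, every prime, with orders

The strong monodromy conjecture is known for large classes of polynomials which are nondegenerate for
their Newton polyhedra. This file proves it, for EVERY prime `p` and with orders, for polynomials with
rational coefficients which become sparse only after NEW VARIABLES are introduced, and which are
degenerate for their Newton polyhedra. The number of variables is arbitrary, and the singularities need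
not be isolated.

* (1) Let `ψ` be ANY automorphism of the ring `ℤ[x, z]` and let `G ∈ ℤ[x, z]`. If the exponents of the
  polynomial `t G + ∑_k u_k ψ(z_k)` are affinely independent, then the conjecture is true with orders, for
  every prime, for the rational multiples of the restriction of `G` to the subspace `ψ(z_k) = 0`, which
  is identified with the affine space by the coordinates `ψ(x_i)`.
* (2) Let `f = ∑_i a_i x ^ (α_i) ∏_k ζ_k ^ (e_{i,k})` be the output of a straight-line program
  `ζ_k = ∑_l c_{k,l} x ^ (m_{k,l}) ∏_{j < k} ζ_j ^ (n_{k,l,j})` with rational coefficients (every line is a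
  polynomial in the variables and in the earlier lines). If the exponents satisfy a linear
  independence condition, then the conjecture is true with orders for `f` and every prime. There is no
  condition on the coefficients.
* (3) An explicit case: `f = a x ^ α h ^ e + a' x ^ β`, where `h = ∑_l c_l x ^ (m_l)` has affinely
  independent exponents and is quasi-homogeneous of degree `d` for some rational weights `W` of any signs,
  and `W · β ≠ W · α + e d`. For instance `(x² + y³ + z⁵)² + x ^ i y ^ j z ^ k` if `i / 2 + j / 3 + k / 5 ≠ 2`;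
  for `h = y² - x³`, `e = 2` these are plane curves with two Puiseux pairs.

Method. The polynomial `F = t G(x, z) + ∑_k u_k ψ(z_k)` is transformed by `ψ` and by
`u_k ↦ u_k + t q_k(x, z)` into `t f(x) + ∑_k u_k z_k`. The zeta function and the functional equations of
`t f + ∑_k u_k z_k` are related to those of `f` in both directions (the roots are shifted by the number of
the `u_k`, together with the factor `s + 1`); two further planes `u z` separate the root `-1` from the
shifted roots. Finally the conjecture with orders is proved for the sparse polynomial `F`. Rational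
coefficients are removed by a rescaling of the lines of the program.
-/

set_option autoImplicit false

namespace Pool.Agent.K6.H7.Var.SparseProgramsPadic

open Pool.Agent.K6.H7.SC Pool.Agent.N165.CU MvPolynomial

/-- **The strong monodromy conjecture with orders and for every prime, for sparse straight-line
programs.**

`StrongMonodromyOrders p f`: the order of the pole at `s₀` of every meromorphic continuation of
`∫_{ℤ_p ^ V} |f(x)| ^ s dx` is at most the multiplicity of `Re s₀` as a root of every nonzero `b` with
a functional equation `b(s) f ^ s = P(s) f ^ (s + 1)`, in particular of `b_f`.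
`graph ψ G = t G(x, z) + ∑_k u_k ψ(z_k)`, `AffInd` says that the exponents are affinely
independent, and `restr ψ G` is `ψ⁻¹(G)` at `z = 0`: the restriction of `G` to the subspace
`ψ(z_k) = 0`. `IsProgramQ c m n ζ` says `ζ_k = ∑_l c_{k,l} x ^ (m_{k,l}) ∏_j ζ_j ^ (n_{k,l,j})`.
`IndepProg α e m n` says that the only rational numbers `w_i`, `μ_{k,l}` with `∑_i w_i = 0`,
`∑_l μ_{k,l} = ∑_i w_i e_{i,k} + ∑_{k',l} μ_{k',l} n_{k',l,k}` and
`∑_i w_i α_i + ∑_{k,l} μ_{k,l} m_{k,l} = 0` are zero. -/
theorem result (p : ℕ) [Fact p.Prime] :
    (∀ {σ κ : Type} [Fintype σ] [Fintype κ]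
      (ψ : MvPolynomial (σ ⊕ κ) ℤ ≃ₐ[ℤ] MvPolynomial (σ ⊕ κ) ℤ) (G : MvPolynomial (σ ⊕ κ) ℤ),
      AffInd (graph ψ G) → ∀ (f : MvPolynomial σ ℚ) (N : ℕ), N ≠ 0 →
        C (N : ℚ) * f = map (Int.castRingHom ℚ) (restr ψ G) → StrongMonodromyOrders p f) ∧
    (∀ {σ I : Type} [Fintype σ] [Fintype I] {r : ℕ} {L : Fin r → Type} [∀ k, Fintype (L k)]
      (a : I → ℚ) (α : I → σ → ℕ) (e : I → Fin r → ℕ) (c : (k : Fin r) → L k → ℚ)
      (m : (k : Fin r) → L k → σ → ℕ) (n : (k : Fin r) → L k → Fin r → ℕ),
      (∀ k l j, k ≤ j → n k l j = 0) → IndepProg α e m n →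
      ∀ ζ : Fin r → MvPolynomial σ ℚ, IsProgramQ c m n ζ →
        StrongMonodromyOrders p (∑ i, C (a i) * (∏ s, X s ^ α i s) * ∏ k, ζ k ^ e i k)) ∧
    (∀ {σ L : Type} [Fintype σ] [Fintype L] (m : L → σ → ℕ) (c : L → ℚ),
      AffineIndependent ℚ (fun (l : L) (s : σ) => (m l s : ℚ)) →
      ∀ (W : σ → ℚ) (d : ℚ), (∀ l, ∑ s, W s * m l s = d) → ∀ (α β : σ → ℕ) (e : ℕ),
        ∑ s, W s * β s ≠ ∑ s, W s * α s + e * d → ∀ a a' : ℚ,
          StrongMonodromyOrders p (C a * (∏ s, X s ^ α s) *
            (∑ l, C (c l) * ∏ s, X s ^ m l s) ^ e + C a' * ∏ s, X s ^ β s)) :=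
  ⟨fun ψ G hG f N hN hf => smo_restr ψ G hG f N hN hf p,
    fun a α e c m n hn h ζ hζ => smo_prog a α e c m n hn h ζ hζ p,
    fun m c hm W d hW α β e hαβ a a' => smo_binom m c hm W d hW α β e hαβ a a' p⟩

end Pool.Agent.K6.H7.Var.SparseProgramsPadic
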