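import Mathlib
import Pool.Agent.K6.H7.SC.Fin

/-!
# Denef's question for sparse straight-line programs and every prime, with orders

The known classes of polynomials `f` for which Denef's question is settled for EVERY prime are given by
conditions on the exponents of `f` itself (affinely independent exponents, simplicial Newton
polyhedra, products of such). This file settles the question, with orders and for every prime, for
polynomials which become sparse only after NEW VARIABLES are introduced, and which are degenerate for
their Newton polyhedra.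

* (1) Let `ψ` be ANY automorphism of the ring `ℤ[x, z]` and let `G ∈ ℤ[x, z]`. If the exponents of the
  polynomial `t G + ∑_k u_k ψ(z_k)` are affinely independent, then Denef's question has a positive answer
  with orders, for every prime, for the restriction of `G` to the subspace `ψ(z_k) = 0`, which is
  identified with the affine space by the coordinates `ψ(x_i)`.
* (2) Let `f = ∑_i a_i x ^ (α_i) ∏_k ζ_k ^ (e_{i,k})` be the output of a straight-line program
  `ζ_k = ∑_l c_{k,l} x ^ (m_{k,l}) ∏_{j < k} ζ_j ^ (n_{k,l,j})` (every line is a polynomial in the variables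
  and in the earlier lines). If the exponents satisfy a linear independence condition, then Denef's
  question has a positive answer with orders for `f` and every prime. The coefficients `a_i`, `c_{k,l}`
  are arbitrary integers.
* (3) An explicit case: `f = a x ^ α h ^ e + a' x ^ β`, where `h = ∑_l c_l x ^ (m_l)` has affinely
  independent exponents and is quasi-homogeneous of degree `d` for some rational weights `W` of any signs,
  and `W · β ≠ W · α + e d`. For instance `(x² + y³ + z⁵)² + x ^ i y ^ j z ^ k` if `i / 2 + j / 3 + k / 5 ≠ 2`;
  for `h = y² - x³`, `e = 2` these are plane curves with two Puiseux pairs and their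
  generalisations to several variables.

Method. The polynomial `F = t G(x, z) + ∑_k u_k ψ(z_k)` is transformed by `ψ` and by
`u_k ↦ u_k + t q_k(x, z)` into `t f(x) + ∑_k u_k z_k`. The Poincaré series and the functional equations of
`t f + ∑_k u_k z_k` are related to those of `f` in both directions (the roots are shifted by the number of
the `u_k`, together with the factor `s + 1`); two further planes `u z` separate the
root `-1` from the shifted roots. Finally the question with orders is settled for the sparse
polynomial `F`.
-/

set_option autoImplicit false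

namespace Pool.Agent.K6.H7.Var.SparseProgramsPoincare

open Pool.Agent.K6.H7.SC MvPolynomial

/-- **Denef's question with orders and for every prime, for sparse straight-line programs.**

`DenefOrders f`: for every prime `p`, Igusa's Poincaré series of `f` is the expansion of a rational
function, and the order of its pole at `T₀` is at most the multiplicity of `t₀ = - log |T₀| / log p`
as a root of every nonzero `b` with a functional equation `b(s) f ^ s = P(s) f ^ (s + 1)`, in particular
of `b_f`. `graph ψ G = t G(x, z) + ∑_k u_k ψ(z_k)`, `AffInd` says that the exponents are affinely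
independent, and `restr ψ G` is `ψ⁻¹(G)` at `z = 0`: the restriction of `G` to the subspace
`ψ(z_k) = 0`. `IsProgram c m n ζ` says `ζ_k = ∑_l c_{k,l} x ^ (m_{k,l}) ∏_j ζ_j ^ (n_{k,l,j})`.
`IndepProg α e m n` says that the only rational numbers `w_i`, `μ_{k,l}` with `∑_i w_i = 0`,
`∑_l μ_{k,l} = ∑_i w_i e_{i,k} + ∑_{k',l} μ_{k',l} n_{k',l,k}` and
`∑_i w_i α_i + ∑_{k,l} μ_{k,l} m_{k,l} = 0` are zero. -/
theorem result :
    (∀ {σ κ : Type} [Fintype σ] [Fintype κ]
      (ψ : MvPolynomial (σ ⊕ κ) ℤ ≃ₐ[ℤ] MvPolynomial (σ ⊕ κ) ℤ) (G : MvPolynomial (σ ⊕ κ) ℤ),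
      AffInd (graph ψ G) → DenefOrders (restr ψ G)) ∧
    (∀ {σ I : Type} [Fintype σ] [Fintype I] {r : ℕ} {L : Fin r → Type} [∀ k, Fintype (L k)]
      (a : I → ℤ) (α : I → σ → ℕ) (e : I → Fin r → ℕ) (c : (k : Fin r) → L k → ℤ)
      (m : (k : Fin r) → L k → σ → ℕ) (n : (k : Fin r) → L k → Fin r → ℕ),
      (∀ k l j, k ≤ j → n k l j = 0) → IndepProg α e m n →
      ∀ ζ : Fin r → MvPolynomial σ ℤ, IsProgram c m n ζ →
        DenefOrders (∑ i, C (a i) * (∏ s, X s ^ α i s) * ∏ k, ζ k ^ e i k)) ∧
    (∀ {σ L : Type} [Fintype σ] [Fintype L] (m : L → σ → ℕ) (c : L → ℤ),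
      AffineIndependent ℚ (fun (l : L) (s : σ) => (m l s : ℚ)) →
      ∀ (W : σ → ℚ) (d : ℚ), (∀ l, ∑ s, W s * m l s = d) → ∀ (α β : σ → ℕ) (e : ℕ),
        ∑ s, W s * β s ≠ ∑ s, W s * α s + e * d → ∀ a a' : ℤ,
          DenefOrders (C a * (∏ s, X s ^ α s) * (∑ l, C (c l) * ∏ s, X s ^ m l s) ^ e +
            C a' * ∏ s, X s ^ β s)) :=
  ⟨fun ψ G hG => denef_restr ψ G hG,
    fun a α e c m n hn h ζ hζ => denef_prog a α e c m n hn h ζ hζ,
    fun m c hm W d hW α β e hαβ a a' => denef_binom m c hm W d hW α β e hαβ a a'⟩

end Pool.Agent.K6.H7.Var.SparseProgramsPoincare
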